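import Mathlib

namespace Pool.Agent.H.MP_ba3dea_co

open SimpleGraph Finset

def s (i : ℕ) : Fin 60 := Fin.ofNat 60 ((3369707968854747971180272350968720657067008757086658374467400373620430431894796340645092340402510552763195648408816957925132120039675809515277220746519326247882761 >>> (6 * i)) % 64)
def t (i : ℕ) : Fin 60 := Fin.ofNat 60 ((3198390511853758333108838191591134437842069346677572111068911634731812700833475985150770916144760035875582823069042941874013055760003316595183251692989053844332608 >>> (6 * i)) % 64)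
def ed (i : ℕ) : Sym2 (Fin 60) := s(s i, t i)

theorem st_ne : ∀ i < 90, s i ≠ t i := by decide +kernel

def G : SimpleGraph (Fin 60) :=
  SimpleGraph.fromRel (fun u v => ∃ i < 90, s i = u ∧ t i = v)

theorem adj_iff (u v : Fin 60) : G.Adj u v ↔ ∃ i < 90, ed i = s(u, v) := by
  rw [G, fromRel_adj]
  constructor
  · rintro ⟨-, ⟨i, hi, rfl, rfl⟩ | ⟨i, hi, rfl, rfl⟩⟩
    · exact ⟨i, hi, rfl⟩
    · exact ⟨i, hi, Sym2.eq_swap⟩
  · rintro ⟨i, hi, h⟩
    rcases Sym2.eq_iff.1 h with ⟨rfl, rfl⟩ | ⟨rfl, rfl⟩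
    · exact ⟨st_ne i hi, Or.inl ⟨i, hi, rfl, rfl⟩⟩
    · exact ⟨(st_ne i hi).symm, Or.inr ⟨i, hi, rfl, rfl⟩⟩

theorem mem_iff (e : Sym2 (Fin 60)) : e ∈ G.edgeSet ↔ ∃ i < 90, ed i = e := by
  induction e using Sym2.ind with
  | _ u v => exact adj_iff u v

def tbl : List (ℕ × ℕ) := [(4, 36028797018964160), (57, 612489549389496320), (58, 108086528495845376), (6, 274), (26, 144115188881162240), (59, 216454257090494464), (37, 288232025419153408), (56, 864691128455168000), (1, 69), (8, 104), (7, 52), (5, 385), (28, 1149239296), (30, 436207616), (48, 579838452023951360), (39, 2353642078208), (29, 218103808), (34, 592705486848), (15, 72057594038321152), (0, 546), (27, 1614807040), (50, 4820258976169984), (22, 2290089984), (40, 446676598784), (23, 289406976), (35, 1185410973696), (18, 106496), (9, 18014398509483009), (10, 1049096), (25, 5385486336), (17, 561152), (52, 1829587348619264), (51, 914793674309632), (33, 4690104287232), (2, 138), (55, 432345564227567632), (20, 2100224), (47, 22588366881030144),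 (36, 11029476016128), (12, 141312), (19, 212992), (49, 6772991627100160), (13, 282624), (24, 578813952), (41, 893353197568), (3, 1284), (46, 2427721674129408), (38, 3307124817920), (31, 4301258752), (32, 4400227549184), (45, 1213860837064704), (44, 9605333580251136), (16, 788480), (42, 8808977924096), (54, 9147936743096832), (43, 9011666020728832), (11, 1118208), (14, 2629632), (53, 18040786788548608), (21, 2148548608)]

def adjB (u v : ℕ) : Bool := (List.range 90).any fun i =>
  ((s i).val == u && (t i).val == v) || ((s i).val == v && (t i).val == u)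

theorem tbl_ok' : (tbl.all fun p => decide (p.1 < 60) &&
    (List.range 60).all fun u => !(p.2.testBit u) || adjB u p.1) = true := by decide +kernel

theorem tbl_ok : ∀ p ∈ tbl, ∃ h : p.1 < 60, ∀ u : Fin 60, p.2.testBit u.val = true →
    G.Adj u ⟨p.1, h⟩ := by
  intro p hp
  have h := tbl_ok'
  simp only [List.all_eq_true, Bool.and_eq_true, decide_eq_true_eq, Bool.or_eq_true,
    Bool.not_eq_true', List.mem_range] at h
  refine ⟨(h p hp).1, fun u hu => ?_⟩
  have h2 := ((h p hp).2 u.val u.isLt).resolve_left (by simp [hu])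
  simp only [adjB, List.any_eq_true, List.mem_range, Bool.or_eq_true, Bool.and_eq_true,
    beq_iff_eq] at h2
  obtain ⟨i, hi, h3⟩ := h2
  rw [adj_iff]
  refine ⟨i, hi, ?_⟩
  rcases h3 with h3 | h3
  · exact Sym2.eq_iff.2 (Or.inl ⟨Fin.ext h3.1, Fin.ext h3.2⟩)
  · exact Sym2.eq_iff.2 (Or.inr ⟨Fin.ext h3.1, Fin.ext h3.2⟩)

def stp (a b : ℕ) (m : ℕ) (p : ℕ × ℕ) : ℕ :=
  bif !(Nat.beq p.1 a) && !(Nat.beq p.1 b) && !(Nat.beq (m &&& p.2) 0) then m ||| 2 ^ p.1 else m

def rt (a b : ℕ) : ℕ :=
  if a ≠ 55 ∧ b ≠ 55 then 55 else if a ≠ 56 ∧ b ≠ 56 then 56 else 57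

def full (a b m : ℕ) : Bool := Nat.beq (m ||| 2 ^ a ||| 2 ^ b ||| 2 ^ 60) (2 ^ 61 - 1)

def go (a b : ℕ) : ℕ → ℕ → Bool
  | 0, _ => false
  | n + 1, m => full a b m || go a b n (tbl.foldl (stp a b) m)

def chk (a b : ℕ) : Bool := go a b 8 (tbl.foldl (stp a b) (2 ^ rt a b))

theorem sound (T : Finset (Fin 60)) (a b : ℕ) (hT : ∀ v : Fin 60, v ∈ T ↔ v.val = a ∨ v.val = b)
    (h : chk a b = true) : (G.induce ((T : Set (Fin 60))ᶜ)).Connected := by
  have r1 : rt a b < 60 := by unfold rt; split_ifs <;> omega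
  have r2 : (⟨rt a b, r1⟩ : Fin 60) ∉ T := by
    rw [hT]; simp only [rt]; split_ifs <;> omega
  obtain ⟨I, hI⟩ : ∃ I : ℕ → Prop, ∀ m, I m ↔ ∀ u, m.testBit u = true → ∃ hu : u < 60,
      ∃ hv : (⟨u, hu⟩ : Fin 60) ∉ T,
        (G.induce ((T : Set (Fin 60))ᶜ)).Reachable ⟨⟨rt a b, r1⟩, r2⟩ ⟨⟨u, hu⟩, hv⟩ :=
    ⟨_, fun _ => Iff.rfl⟩
  have i1 : ∀ m, ∀ p ∈ tbl, I m → I (stp a b m p) := by
    intro m p hp hm
    unfold stp
    cases hc : (!(Nat.beq p.1 a) && !(Nat.beq p.1 b) && !(Nat.beq (m &&& p.2) 0))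
    · exact hm
    · simp only [Bool.and_eq_true, Bool.not_eq_true', ← Bool.not_eq_true, Nat.beq_eq] at hc
      obtain ⟨⟨c1, c2⟩, c3⟩ := hc
      obtain ⟨hp1, hp2⟩ := tbl_ok p hp
      rw [hI] at hm ⊢
      intro u hu
      rw [cond_true, Nat.testBit_or, Bool.or_eq_true, Nat.testBit_two_pow, decide_eq_true_eq] at hu
      rcases hu with hu | rfl
      · exact hm u hu
      · obtain ⟨w, hw⟩ := Nat.exists_testBit_of_ne_zero c3
        rw [Nat.testBit_and, Bool.and_eq_true] at hw
        obtain ⟨hw1, hw2, hw3⟩ := hm w hw.1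
        have hv : (⟨p.1, hp1⟩ : Fin 60) ∉ T := by
          rw [hT]; simp only; omega
        exact ⟨hp1, hv, hw3.trans (Adj.reachable (by simpa using hp2 ⟨w, hw1⟩ hw.2))⟩
  have i2 : ∀ l : List (ℕ × ℕ), (∀ p ∈ l, p ∈ tbl) → ∀ m, I m → I (l.foldl (stp a b) m) := by
    intro l
    induction l with
    | nil => intro _ m hm; exact hm
    | cons p l ih =>
      intro hl m hm
      exact ih (fun q hq => hl q (List.mem_cons_of_mem _ hq)) _ (i1 m p (hl p List.mem_cons_self) hm)
  have i0 : I (2 ^ rt a b) := by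
    rw [hI]
    intro u hu
    rw [Nat.testBit_two_pow, decide_eq_true_eq] at hu
    subst hu
    exact ⟨r1, r2, Reachable.refl _⟩
  have i3 : ∀ n m, I m → go a b n m = true → ∃ m', I m' ∧ full a b m' = true := by
    intro n
    induction n with
    | zero => intro m _ hg; simp [go] at hg
    | succ n ih =>
      intro m hm hg
      rw [go, Bool.or_eq_true] at hg
      rcases hg with hg | hg
      · exact ⟨m, hm, hg⟩
      · exact ih _ (i2 tbl (fun _ h => h) _ hm) hg
  obtain ⟨M, hM, hf⟩ := i3 8 _ (i2 tbl (fun _ h => h) _ i0) h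
  have key : ∀ x : ((T : Set (Fin 60))ᶜ : Set (Fin 60)),
      (G.induce ((T : Set (Fin 60))ᶜ)).Reachable ⟨⟨rt a b, r1⟩, r2⟩ x := by
    rintro ⟨x, hx⟩
    have hx' : x ∉ T := hx
    rw [hT] at hx'
    have hl := x.isLt
    have h1 : (M ||| 2 ^ a ||| 2 ^ b ||| 2 ^ 60).testBit x.val = true := by
      rw [Nat.eq_of_beq_eq_true hf, Nat.testBit_two_pow_sub_one, decide_eq_true_eq]; omega
    simp only [Nat.testBit_or, Bool.or_eq_true, Nat.testBit_two_pow, decide_eq_true_eq] at h1
    have h2 : M.testBit x.val = true := by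
      rcases h1 with ((h1 | h1) | h1) | h1
      · exact h1
      all_goals omega
    obtain ⟨_, _, h3⟩ := (hI _).1 hM x.val h2
    exact h3
  have : Nonempty ((T : Set (Fin 60))ᶜ : Set (Fin 60)) := ⟨⟨_, r2⟩⟩
  exact ⟨fun x y => (key x).symm.trans (key y)⟩

def row (a : ℕ) : Bool := (List.range 61).all fun b => Nat.blt b a || chk a b

theorem rows0 : ((List.range' 0 6).all row) = true := by decide +kernel
theorem rows1 : ((List.range' 6 7).all row) = true := by decide +kernel
theorem rows2 : ((List.range' 13 8).all row) = true := by decide +kernel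
theorem rows3 : ((List.range' 21 10).all row) = true := by decide +kernel
theorem rows4 : ((List.range' 31 30).all row) = true := by decide +kernel

theorem chk_all (a b : ℕ) (hab : a ≤ b) (hb : b ≤ 60) : chk a b = true := by
  have hr : row a = true := by
    have h0 := List.all_eq_true.1 rows0 a
    have h1 := List.all_eq_true.1 rows1 a
    have h2 := List.all_eq_true.1 rows2 a
    have h3 := List.all_eq_true.1 rows3 a
    have h4 := List.all_eq_true.1 rows4 a
    simp only [List.mem_range'_1] at h0 h1 h2 h3 h4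
    by_cases c0 : a < 6
    · exact h0 (by omega)
    by_cases c1 : a < 13
    · exact h1 (by omega)
    by_cases c2 : a < 21
    · exact h2 (by omega)
    by_cases c3 : a < 31
    · exact h3 (by omega)
    by_cases c4 : a < 61
    · exact h4 (by omega)
    omega
  have := List.all_eq_true.1 hr b (List.mem_range.2 (by omega))
  rw [Bool.or_eq_true, Nat.blt_eq] at this
  exact this.resolve_left (by omega)

theorem conn (T : Finset (Fin 60)) (h : T.card < 3) :
    (G.induce ((T : Set (Fin 60))ᶜ)).Connected := by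
  have h' : T.card = 0 ∨ T.card = 1 ∨ T.card = 2 := by omega
  rcases h' with h' | h' | h'
  · rw [card_eq_zero] at h'
    exact sound T 60 60 (fun v => by have := v.isLt; simp [h']; omega) (chk_all _ _ le_rfl le_rfl)
  · obtain ⟨a, rfl⟩ := card_eq_one.1 h'
    exact sound _ a.val a.val (fun v => by simp [Fin.ext_iff]) (chk_all _ _ le_rfl a.isLt.le)
  · obtain ⟨a, b, -, rfl⟩ := card_eq_two.1 h'
    rcases le_total a.val b.val with hab | hab
    · exact sound _ a.val b.val (fun v => by simp [Fin.ext_iff]) (chk_all _ _ hab b.isLt.le)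
    · exact sound _ b.val a.val (fun v => by simp [Fin.ext_iff, or_comm]) (chk_all _ _ hab a.isLt.le)

end Pool.Agent.H.MP_ba3dea_co
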