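import Mathlib

namespace Pool.Agent.H.MP_ba3dea_co

def Par (a0 a1 a2 a3 a4 a5 a6 a7 a8 a9 a10 a11 a12 a13 a14 : ℕ) : Prop :=
  (a0 + a4 + a5) % 2 = 0 ∧
  (a0 + a1 + a6) % 2 = 0 ∧
  (a1 + a2 + a7) % 2 = 0 ∧
  (a2 + a3 + a8) % 2 = 0 ∧
  (a3 + a4 + a9) % 2 = 0 ∧
  (a5 + a10 + a13) % 2 = 0 ∧
  (a6 + a11 + a14) % 2 = 0 ∧
  (a7 + a10 + a12) % 2 = 0 ∧
  (a8 + a11 + a13) % 2 = 0 ∧
  (a9 + a12 + a14) % 2 = 0

def Ine (a0 a1 a2 a3 a4 a5 a6 a7 a8 a9 a10 a11 a12 a13 a14 : ℕ) : Prop :=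
  a0 + a2 + a9 + a10 + a11 + (a1 + a6 + a7 + a12 + a14) % 2 ≤ a1 + a3 + a4 + a5 + a6 + a7 + a8 + a12 + a13 + a14 ∧
  a0 + a3 + a7 + a13 + a14 + (a1 + a2 + a6 + a8 + a11) % 2 ≤ a1 + a2 + a4 + a5 + a6 + a8 + a9 + a10 + a11 + a12 ∧
  a1 + a3 + a5 + a11 + a12 + (a0 + a4 + a6 + a9 + a14) % 2 ≤ a0 + a2 + a4 + a6 + a7 + a8 + a9 + a10 + a13 + a14 ∧
  a1 + a4 + a8 + a10 + a14 + (a0 + a5 + a6 + a11 + a13) % 2 ≤ a0 + a2 + a3 + a5 + a6 + a7 + a9 + a11 + a12 + a13 ∧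
  a2 + a4 + a6 + a12 + a13 + (a0 + a1 + a5 + a7 + a10) % 2 ≤ a0 + a1 + a3 + a5 + a7 + a8 + a9 + a10 + a11 + a14 ∧
  a5 + a6 + a7 + a8 + a9 + (a0 + a1 + a2 + a3 + a4) % 2 ≤ a0 + a1 + a2 + a3 + a4 + a10 + a11 + a12 + a13 + a14

theorem ar1 : ([0, 1].all fun a0 => [0, 1].all fun a4 => [0, 1].all fun a5 => (a0 + a4 + a5) % 2 != 0 ||
    [0, 1].all fun a1 => [0, 1].all fun a6 => (a0 + a1 + a6) % 2 != 0 ||
    [0, 1].all fun a2 => [0, 1].all fun a7 => (a1 + a2 + a7) % 2 != 0 ||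
    [0, 1].all fun a3 => [0, 1].all fun a8 => (a2 + a3 + a8) % 2 != 0 ||
    [0, 1].all fun a9 => (a3 + a4 + a9) % 2 != 0 ||
    [0, 1].all fun a10 => [0, 1].all fun a13 => (a5 + a10 + a13) % 2 != 0 ||
    [0, 1].all fun a11 => [0, 1].all fun a14 => (a6 + a11 + a14) % 2 != 0 ||
    [0, 1].all fun a12 => (a7 + a10 + a12) % 2 != 0 ||
    (a8 + a11 + a13) % 2 != 0 ||
    (a9 + a12 + a14) % 2 != 0 ||
    decide (a0 + a2 + a9 + a10 + a11 + (a1 + a6 + a7 + a12 + a14) % 2 ≤ a1 + a3 + a4 + a5 + a6 + a7 + a8 + a12 + a13 + a14 ∧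
    a0 + a3 + a7 + a13 + a14 + (a1 + a2 + a6 + a8 + a11) % 2 ≤ a1 + a2 + a4 + a5 + a6 + a8 + a9 + a10 + a11 + a12 ∧
    a1 + a3 + a5 + a11 + a12 + (a0 + a4 + a6 + a9 + a14) % 2 ≤ a0 + a2 + a4 + a6 + a7 + a8 + a9 + a10 + a13 + a14 ∧
    a1 + a4 + a8 + a10 + a14 + (a0 + a5 + a6 + a11 + a13) % 2 ≤ a0 + a2 + a3 + a5 + a6 + a7 + a9 + a11 + a12 + a13 ∧
    a2 + a4 + a6 + a12 + a13 + (a0 + a1 + a5 + a7 + a10) % 2 ≤ a0 + a1 + a3 + a5 + a7 + a8 + a9 + a10 + a11 + a14 ∧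
    a5 + a6 + a7 + a8 + a9 + (a0 + a1 + a2 + a3 + a4) % 2 ≤ a0 + a1 + a2 + a3 + a4 + a10 + a11 + a12 + a13 + a14)) = true := by
  decide +kernel

theorem ar2 : ([1, 2].all fun a0 => [1, 2].all fun a4 => [1, 2].all fun a5 => (a0 + a4 + a5) % 2 != 0 ||
    [1, 2].all fun a1 => [1, 2].all fun a6 => (a0 + a1 + a6) % 2 != 0 ||
    [1, 2].all fun a2 => [1, 2].all fun a7 => (a1 + a2 + a7) % 2 != 0 ||
    [1, 2].all fun a3 => [1, 2].all fun a8 => (a2 + a3 + a8) % 2 != 0 ||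
    [1, 2].all fun a9 => (a3 + a4 + a9) % 2 != 0 ||
    [1, 2].all fun a10 => [1, 2].all fun a13 => (a5 + a10 + a13) % 2 != 0 ||
    [1, 2].all fun a11 => [1, 2].all fun a14 => (a6 + a11 + a14) % 2 != 0 ||
    [1, 2].all fun a12 => (a7 + a10 + a12) % 2 != 0 ||
    (a8 + a11 + a13) % 2 != 0 ||
    (a9 + a12 + a14) % 2 != 0 ||
    decide ((a0 + a2 + a9 + a10 + a11 + (a1 + a6 + a7 + a12 + a14) % 2 ≤ a1 + a3 + a4 + a5 + a6 + a7 + a8 + a12 + a13 + a14 ∧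
    a0 + a3 + a7 + a13 + a14 + (a1 + a2 + a6 + a8 + a11) % 2 ≤ a1 + a2 + a4 + a5 + a6 + a8 + a9 + a10 + a11 + a12 ∧
    a1 + a3 + a5 + a11 + a12 + (a0 + a4 + a6 + a9 + a14) % 2 ≤ a0 + a2 + a4 + a6 + a7 + a8 + a9 + a10 + a13 + a14 ∧
    a1 + a4 + a8 + a10 + a14 + (a0 + a5 + a6 + a11 + a13) % 2 ≤ a0 + a2 + a3 + a5 + a6 + a7 + a9 + a11 + a12 + a13 ∧
    a2 + a4 + a6 + a12 + a13 + (a0 + a1 + a5 + a7 + a10) % 2 ≤ a0 + a1 + a3 + a5 + a7 + a8 + a9 + a10 + a11 + a14 ∧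
    a5 + a6 + a7 + a8 + a9 + (a0 + a1 + a2 + a3 + a4) % 2 ≤ a0 + a1 + a2 + a3 + a4 + a10 + a11 + a12 + a13 + a14) →
    21 ≤ a0 + a1 + a2 + a3 + a4 + a5 + a6 + a7 + a8 + a9 + a10 + a11 + a12 + a13 + a14 ∧ 13 ≤ a0 + a1 + a2 + a3 + a4 + a10 + a11 + a12 + a13 + a14)) = true := by
  decide +kernel

theorem one (a0 a1 a2 a3 a4 a5 a6 a7 a8 a9 a10 a11 a12 a13 a14 : ℕ) (m0 : a0 ∈ [0, 1]) (m1 : a1 ∈ [0, 1]) (m2 : a2 ∈ [0, 1]) (m3 : a3 ∈ [0, 1]) (m4 : a4 ∈ [0, 1]) (m5 : a5 ∈ [0, 1]) (m6 : a6 ∈ [0, 1]) (m7 : a7 ∈ [0, 1]) (m8 : a8 ∈ [0, 1]) (m9 : a9 ∈ [0, 1]) (m10 : a10 ∈ [0, 1]) (m11 : a11 ∈ [0, 1]) (m12 : a12 ∈ [0, 1]) (m13 : a13 ∈ [0, 1]) (m14 : a14 ∈ [0, 1])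
    (hp : Par a0 a1 a2 a3 a4 a5 a6 a7 a8 a9 a10 a11 a12 a13 a14) : Ine a0 a1 a2 a3 a4 a5 a6 a7 a8 a9 a10 a11 a12 a13 a14 := by
  obtain ⟨p0, p1, p2, p3, p4, p5, p6, p7, p8, p9⟩ := hp
  have h := ar1
  simp only [List.all_eq_true, Bool.or_eq_true, bne_iff_ne, ne_eq, decide_eq_true_eq,
    or_assoc] at h
  have k0 := (h a0 m0 a4 m4 a5 m5).resolve_left (not_not.2 p0)
  have k1 := (k0 a1 m1 a6 m6).resolve_left (not_not.2 p1)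
  have k2 := (k1 a2 m2 a7 m7).resolve_left (not_not.2 p2)
  have k3 := (k2 a3 m3 a8 m8).resolve_left (not_not.2 p3)
  have k4 := (k3 a9 m9).resolve_left (not_not.2 p4)
  have k5 := (k4 a10 m10 a13 m13).resolve_left (not_not.2 p5)
  have k6 := (k5 a11 m11 a14 m14).resolve_left (not_not.2 p6)
  have k7 := (k6 a12 m12).resolve_left (not_not.2 p7)
  have k8 := (k7).resolve_left (not_not.2 p8)
  have k9 := (k8).resolve_left (not_not.2 p9)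
  exact k9

theorem two (a0 a1 a2 a3 a4 a5 a6 a7 a8 a9 a10 a11 a12 a13 a14 : ℕ) (m0 : a0 ∈ [1, 2]) (m1 : a1 ∈ [1, 2]) (m2 : a2 ∈ [1, 2]) (m3 : a3 ∈ [1, 2]) (m4 : a4 ∈ [1, 2]) (m5 : a5 ∈ [1, 2]) (m6 : a6 ∈ [1, 2]) (m7 : a7 ∈ [1, 2]) (m8 : a8 ∈ [1, 2]) (m9 : a9 ∈ [1, 2]) (m10 : a10 ∈ [1, 2]) (m11 : a11 ∈ [1, 2]) (m12 : a12 ∈ [1, 2]) (m13 : a13 ∈ [1, 2]) (m14 : a14 ∈ [1, 2])
    (hp : Par a0 a1 a2 a3 a4 a5 a6 a7 a8 a9 a10 a11 a12 a13 a14) (hi : Ine a0 a1 a2 a3 a4 a5 a6 a7 a8 a9 a10 a11 a12 a13 a14) :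
    21 ≤ a0 + a1 + a2 + a3 + a4 + a5 + a6 + a7 + a8 + a9 + a10 + a11 + a12 + a13 + a14 ∧ 13 ≤ a0 + a1 + a2 + a3 + a4 + a10 + a11 + a12 + a13 + a14 := by
  obtain ⟨p0, p1, p2, p3, p4, p5, p6, p7, p8, p9⟩ := hp
  have h := ar2
  simp only [List.all_eq_true, Bool.or_eq_true, bne_iff_ne, ne_eq, decide_eq_true_eq,
    or_assoc] at h
  have k0 := (h a0 m0 a4 m4 a5 m5).resolve_left (not_not.2 p0)
  have k1 := (k0 a1 m1 a6 m6).resolve_left (not_not.2 p1)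
  have k2 := (k1 a2 m2 a7 m7).resolve_left (not_not.2 p2)
  have k3 := (k2 a3 m3 a8 m8).resolve_left (not_not.2 p3)
  have k4 := (k3 a9 m9).resolve_left (not_not.2 p4)
  have k5 := (k4 a10 m10 a13 m13).resolve_left (not_not.2 p5)
  have k6 := (k5 a11 m11 a14 m14).resolve_left (not_not.2 p6)
  have k7 := (k6 a12 m12).resolve_left (not_not.2 p7)
  have k8 := (k7).resolve_left (not_not.2 p8)
  have k9 := (k8).resolve_left (not_not.2 p9)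
  exact k9 hi

theorem par_add (a0 a1 a2 a3 a4 a5 a6 a7 a8 a9 a10 a11 a12 a13 a14 b0 b1 b2 b3 b4 b5 b6 b7 b8 b9 b10 b11 b12 b13 b14 : ℕ) (ha : Par a0 a1 a2 a3 a4 a5 a6 a7 a8 a9 a10 a11 a12 a13 a14) (hb : Par b0 b1 b2 b3 b4 b5 b6 b7 b8 b9 b10 b11 b12 b13 b14) :
    Par (a0 + b0) (a1 + b1) (a2 + b2) (a3 + b3) (a4 + b4) (a5 + b5) (a6 + b6) (a7 + b7) (a8 + b8) (a9 + b9) (a10 + b10) (a11 + b11) (a12 + b12) (a13 + b13) (a14 + b14) := by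
  obtain ⟨p0, p1, p2, p3, p4, p5, p6, p7, p8, p9⟩ := ha
  obtain ⟨q0, q1, q2, q3, q4, q5, q6, q7, q8, q9⟩ := hb
  refine ⟨?_, ?_, ?_, ?_, ?_, ?_, ?_, ?_, ?_, ?_⟩
  · clear * - p0 q0; omega
  · clear * - p1 q1; omega
  · clear * - p2 q2; omega
  · clear * - p3 q3; omega
  · clear * - p4 q4; omega
  · clear * - p5 q5; omega
  · clear * - p6 q6; omega
  · clear * - p7 q7; omega
  · clear * - p8 q8; omega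
  · clear * - p9 q9; omega

theorem ine_add (a0 a1 a2 a3 a4 a5 a6 a7 a8 a9 a10 a11 a12 a13 a14 b0 b1 b2 b3 b4 b5 b6 b7 b8 b9 b10 b11 b12 b13 b14 : ℕ) (ha : Ine a0 a1 a2 a3 a4 a5 a6 a7 a8 a9 a10 a11 a12 a13 a14) (hb : Ine b0 b1 b2 b3 b4 b5 b6 b7 b8 b9 b10 b11 b12 b13 b14) :
    Ine (a0 + b0) (a1 + b1) (a2 + b2) (a3 + b3) (a4 + b4) (a5 + b5) (a6 + b6) (a7 + b7) (a8 + b8) (a9 + b9) (a10 + b10) (a11 + b11) (a12 + b12) (a13 + b13) (a14 + b14) := by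
  obtain ⟨p0, p1, p2, p3, p4, p5⟩ := ha
  obtain ⟨q0, q1, q2, q3, q4, q5⟩ := hb
  refine ⟨?_, ?_, ?_, ?_, ?_, ?_⟩
  · clear * - p0 q0; omega
  · clear * - p1 q1; omega
  · clear * - p2 q2; omega
  · clear * - p3 q3; omega
  · clear * - p4 q4; omega
  · clear * - p5 q5; omega

theorem fam {ι : Type} (X : ι → ℕ → ℕ) (i0 i1 i2 i3 i4 i5 i6 i7 i8 i9 i10 i11 i12 i13 i14 : ℕ) (F : List ι)
    (h1 : ∀ C ∈ F, ∀ i, X C i ∈ [0, 1])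
    (h2 : ∀ C ∈ F, Par (X C i0) (X C i1) (X C i2) (X C i3) (X C i4) (X C i5) (X C i6) (X C i7) (X C i8) (X C i9) (X C i10) (X C i11) (X C i12) (X C i13) (X C i14))
    (W : ℕ → ℕ) (hW : ∀ i, W i = (F.map (fun C => X C i)).sum) :
    Par (W i0) (W i1) (W i2) (W i3) (W i4) (W i5) (W i6) (W i7) (W i8) (W i9) (W i10) (W i11) (W i12) (W i13) (W i14) ∧
    Ine (W i0) (W i1) (W i2) (W i3) (W i4) (W i5) (W i6) (W i7) (W i8) (W i9) (W i10) (W i11) (W i12) (W i13) (W i14) := by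
  simp only [hW]
  clear hW
  induction F with
  | nil => simp [Par, Ine]
  | cons C F ih =>
    have ih' := ih (fun D hD => h1 D (List.mem_cons_of_mem _ hD))
      (fun D hD => h2 D (List.mem_cons_of_mem _ hD))
    have c1 := h1 C List.mem_cons_self
    have c2 := h2 C List.mem_cons_self
    simp only [List.map_cons, List.sum_cons]
    exact ⟨par_add _ _ _ _ _ _ _ _ _ _ _ _ _ _ _ _ _ _ _ _ _ _ _ _ _ _ _ _ _ _ c2 ih'.1,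
      ine_add _ _ _ _ _ _ _ _ _ _ _ _ _ _ _ _ _ _ _ _ _ _ _ _ _ _ _ _ _ _
        (one _ _ _ _ _ _ _ _ _ _ _ _ _ _ _ (c1 _) (c1 _) (c1 _) (c1 _) (c1 _) (c1 _) (c1 _) (c1 _) (c1 _) (c1 _) (c1 _) (c1 _) (c1 _) (c1 _) (c1 _) c2) ih'.2⟩

end Pool.Agent.H.MP_ba3dea_co
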