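import Mathlib
import Pool.Agent.H.MP_ba3dea_co.Conn
import Pool.Agent.H.MP_ba3dea_co.Pet

namespace Pool.Agent.H.MP_ba3dea_co

open SimpleGraph Finset

def e1 (v : Fin 60) : ℕ := (1383305006238446709728325344254792893847652260304127554048379925425619206217817250295635215216445772384935983422568681416196224 >>> (7 * v.val)) % 128
def e2 (v : Fin 60) : ℕ := (1854703140282790164508998881301016561315245191044603487509124772977325682361342364533508630288830788660076878818759278172619009 >>> (7 * v.val)) % 128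
def e3 (v : Fin 60) : ℕ := (1897343863019889678799384857847777601192931186467056671033191456850630190442110864545321054470288854316504721581684134384894854 >>> (7 * v.val)) % 128

theorem e_lt : ∀ v, e1 v < 90 ∧ e2 v < 90 ∧ e3 v < 90 := by decide +kernel

theorem ed_inj' : ((List.range 90).all fun i => (List.range 90).all fun j =>
    Nat.beq i j || !((Nat.beq (s i).val (s j).val && Nat.beq (t i).val (t j).val) ||
      (Nat.beq (s i).val (t j).val && Nat.beq (t i).val (s j).val))) = true := by decide +kernel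

theorem ed_inj (i j : ℕ) (hi : i < 90) (hj : j < 90) (h : ed i = ed j) : i = j := by
  have h1 := ed_inj'
  simp only [List.all_eq_true, List.mem_range, Bool.or_eq_true, Nat.beq_eq, Bool.not_eq_true',
    ← Bool.not_eq_true, Bool.and_eq_true] at h1
  refine (h1 i hi j hj).resolve_right (not_not.2 ?_)
  rcases Sym2.eq_iff.1 h with ⟨a, b⟩ | ⟨a, b⟩
  · exact Or.inl ⟨by rw [a], by rw [b]⟩
  · exact Or.inr ⟨by rw [a], by rw [b]⟩

theorem inc_ok : ∀ i < 90, ∀ a : Fin 60,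
    ((if i = e1 a then 1 else 0) + (if i = e2 a then 1 else 0) + (if i = e3 a then 1 else 0) : ℕ) =
      (if a = s i then 1 else 0) + (if a = t i then 1 else 0) := by decide +kernel

def xc {u v : Fin 60} (p : G.Walk u v) (i : ℕ) : ℕ := p.edges.count (ed i)

theorem xc_cons {u w v : Fin 60} (h : G.Adj u w) (p : G.Walk w v) (i : ℕ) (hi : i < 90)
    (he : ed i = s(u, w)) (j : ℕ) (hj : j < 90) :
    xc (Walk.cons h p) j = xc p j + if i = j then 1 else 0 := by
  simp only [xc, Walk.edges_cons, List.count_cons, ← he, beq_iff_eq]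
  congr 1
  by_cases e : i = j
  · simp [e]
  · rw [if_neg e, if_neg (fun h' => e (ed_inj i j hi hj h'))]

theorem par_walk {u v : Fin 60} (p : G.Walk u v) (a : Fin 60) :
    (xc p (e1 a) + xc p (e2 a) + xc p (e3 a) + (if a = u then 1 else 0) +
      (if a = v then 1 else 0)) % 2 = 0 := by
  induction p with
  | nil => simp only [xc, Walk.edges_nil, List.count_nil]; omega
  | @cons u w v h p ih =>
    obtain ⟨i, hi, he⟩ := (adj_iff u w).1 h
    obtain ⟨l1, l2, l3⟩ := e_lt a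
    rw [xc_cons h p i hi he _ l1, xc_cons h p i hi he _ l2, xc_cons h p i hi he _ l3]
    have k := inc_ok i hi a
    rcases Sym2.eq_iff.1 he with ⟨a1, a2⟩ | ⟨a1, a2⟩ <;> rw [a1, a2] at k <;> omega

theorem len_walk {u v : Fin 60} (p : G.Walk u v) : p.length = ∑ j ∈ range 90, xc p j := by
  induction p with
  | nil => simp [xc]
  | @cons u w v h p ih =>
    obtain ⟨i, hi, he⟩ := (adj_iff u w).1 h
    rw [Walk.length_cons, ih, Finset.sum_congr rfl
      (fun j hj => xc_cons h p i hi he j (mem_range.1 hj)), sum_add_distrib, Finset.sum_ite_eq,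
      if_pos (mem_range.2 hi)]

def ParG (x : ℕ → ℕ) : Prop := ∀ a : Fin 60, (x (e1 a) + x (e2 a) + x (e3 a)) % 2 = 0

theorem parG {u : Fin 60} (p : G.Walk u u) : ParG (xc p) := by
  intro a
  have := par_walk p a
  omega

theorem proj0 (x : ℕ → ℕ) (h : ParG x) : Par (x 0) (x 1) (x 2) (x 3) (x 4) (x 5) (x 6) (x 7) (x 8) (x 9) (x 10) (x 11) (x 12) (x 13) (x 14) := by
  refine ⟨?_, ?_, ?_, ?_, ?_, ?_, ?_, ?_, ?_, ?_⟩
  · have g0 : (x 0 + x 1 + x 6) % 2 = 0 := h 0
    have g1 : (x 1 + x 2 + x 7) % 2 = 0 := h 1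
    have g2 : (x 2 + x 3 + x 8) % 2 = 0 := h 2
    have g3 : (x 3 + x 4 + x 9) % 2 = 0 := h 3
    have g4 : (x 5 + x 10 + x 13) % 2 = 0 := h 4
    have g5 : (x 6 + x 11 + x 14) % 2 = 0 := h 5
    have g6 : (x 7 + x 10 + x 12) % 2 = 0 := h 6
    have g7 : (x 8 + x 11 + x 13) % 2 = 0 := h 7
    have g8 : (x 9 + x 12 + x 14) % 2 = 0 := h 8
    omega
  · have g0 : (x 0 + x 1 + x 6) % 2 = 0 := h 0
    omega
  · have g1 : (x 1 + x 2 + x 7) % 2 = 0 := h 1
    omega
  · have g2 : (x 2 + x 3 + x 8) % 2 = 0 := h 2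
    omega
  · have g3 : (x 3 + x 4 + x 9) % 2 = 0 := h 3
    omega
  · have g4 : (x 5 + x 10 + x 13) % 2 = 0 := h 4
    omega
  · have g5 : (x 6 + x 11 + x 14) % 2 = 0 := h 5
    omega
  · have g6 : (x 7 + x 10 + x 12) % 2 = 0 := h 6
    omega
  · have g7 : (x 8 + x 11 + x 13) % 2 = 0 := h 7
    omega
  · have g8 : (x 9 + x 12 + x 14) % 2 = 0 := h 8
    omega

theorem proj1 (x : ℕ → ℕ) (h : ParG x) : Par (x 15) (x 16) (x 17) (x 18) (x 19) (x 20) (x 21) (x 22) (x 23) (x 24) (x 25) (x 26) (x 27) (x 28) (x 29) := by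
  refine ⟨?_, ?_, ?_, ?_, ?_, ?_, ?_, ?_, ?_, ?_⟩
  · have g11 : (x 15 + x 16 + x 21) % 2 = 0 := h 11
    have g12 : (x 16 + x 17 + x 22) % 2 = 0 := h 12
    have g13 : (x 17 + x 18 + x 23) % 2 = 0 := h 13
    have g14 : (x 18 + x 19 + x 24) % 2 = 0 := h 14
    have g15 : (x 20 + x 25 + x 28) % 2 = 0 := h 15
    have g16 : (x 21 + x 26 + x 29) % 2 = 0 := h 16
    have g17 : (x 22 + x 25 + x 27) % 2 = 0 := h 17
    have g18 : (x 23 + x 26 + x 28) % 2 = 0 := h 18
    have g19 : (x 24 + x 27 + x 29) % 2 = 0 := h 19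
    omega
  · have g11 : (x 15 + x 16 + x 21) % 2 = 0 := h 11
    omega
  · have g12 : (x 16 + x 17 + x 22) % 2 = 0 := h 12
    omega
  · have g13 : (x 17 + x 18 + x 23) % 2 = 0 := h 13
    omega
  · have g14 : (x 18 + x 19 + x 24) % 2 = 0 := h 14
    omega
  · have g15 : (x 20 + x 25 + x 28) % 2 = 0 := h 15
    omega
  · have g16 : (x 21 + x 26 + x 29) % 2 = 0 := h 16
    omega
  · have g17 : (x 22 + x 25 + x 27) % 2 = 0 := h 17
    omega
  · have g18 : (x 23 + x 26 + x 28) % 2 = 0 := h 18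
    omega
  · have g19 : (x 24 + x 27 + x 29) % 2 = 0 := h 19
    omega

theorem proj2 (x : ℕ → ℕ) (h : ParG x) : Par (x 30) (x 31) (x 32) (x 33) (x 34) (x 35) (x 36) (x 37) (x 38) (x 39) (x 40) (x 41) (x 42) (x 43) (x 44) := by
  refine ⟨?_, ?_, ?_, ?_, ?_, ?_, ?_, ?_, ?_, ?_⟩
  · have g22 : (x 30 + x 31 + x 36) % 2 = 0 := h 22
    have g23 : (x 31 + x 32 + x 37) % 2 = 0 := h 23
    have g24 : (x 32 + x 33 + x 38) % 2 = 0 := h 24
    have g25 : (x 33 + x 34 + x 39) % 2 = 0 := h 25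
    have g26 : (x 35 + x 40 + x 43) % 2 = 0 := h 26
    have g27 : (x 36 + x 41 + x 44) % 2 = 0 := h 27
    have g28 : (x 37 + x 40 + x 42) % 2 = 0 := h 28
    have g29 : (x 38 + x 41 + x 43) % 2 = 0 := h 29
    have g30 : (x 39 + x 42 + x 44) % 2 = 0 := h 30
    omega
  · have g22 : (x 30 + x 31 + x 36) % 2 = 0 := h 22
    omega
  · have g23 : (x 31 + x 32 + x 37) % 2 = 0 := h 23
    omega
  · have g24 : (x 32 + x 33 + x 38) % 2 = 0 := h 24
    omega
  · have g25 : (x 33 + x 34 + x 39) % 2 = 0 := h 25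
    omega
  · have g26 : (x 35 + x 40 + x 43) % 2 = 0 := h 26
    omega
  · have g27 : (x 36 + x 41 + x 44) % 2 = 0 := h 27
    omega
  · have g28 : (x 37 + x 40 + x 42) % 2 = 0 := h 28
    omega
  · have g29 : (x 38 + x 41 + x 43) % 2 = 0 := h 29
    omega
  · have g30 : (x 39 + x 42 + x 44) % 2 = 0 := h 30
    omega

theorem proj3 (x : ℕ → ℕ) (h : ParG x) : Par (x 45) (x 46) (x 47) (x 48) (x 49) (x 50) (x 51) (x 52) (x 53) (x 54) (x 55) (x 56) (x 57) (x 58) (x 59) := by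
  refine ⟨?_, ?_, ?_, ?_, ?_, ?_, ?_, ?_, ?_, ?_⟩
  · have g33 : (x 45 + x 46 + x 51) % 2 = 0 := h 33
    have g34 : (x 46 + x 47 + x 52) % 2 = 0 := h 34
    have g35 : (x 47 + x 48 + x 53) % 2 = 0 := h 35
    have g36 : (x 48 + x 49 + x 54) % 2 = 0 := h 36
    have g37 : (x 50 + x 55 + x 58) % 2 = 0 := h 37
    have g38 : (x 51 + x 56 + x 59) % 2 = 0 := h 38
    have g39 : (x 52 + x 55 + x 57) % 2 = 0 := h 39
    have g40 : (x 53 + x 56 + x 58) % 2 = 0 := h 40
    have g41 : (x 54 + x 57 + x 59) % 2 = 0 := h 41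
    omega
  · have g33 : (x 45 + x 46 + x 51) % 2 = 0 := h 33
    omega
  · have g34 : (x 46 + x 47 + x 52) % 2 = 0 := h 34
    omega
  · have g35 : (x 47 + x 48 + x 53) % 2 = 0 := h 35
    omega
  · have g36 : (x 48 + x 49 + x 54) % 2 = 0 := h 36
    omega
  · have g37 : (x 50 + x 55 + x 58) % 2 = 0 := h 37
    omega
  · have g38 : (x 51 + x 56 + x 59) % 2 = 0 := h 38
    omega
  · have g39 : (x 52 + x 55 + x 57) % 2 = 0 := h 39
    omega
  · have g40 : (x 53 + x 56 + x 58) % 2 = 0 := h 40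
    omega
  · have g41 : (x 54 + x 57 + x 59) % 2 = 0 := h 41
    omega

theorem proj4 (x : ℕ → ℕ) (h : ParG x) : Par (x 60) (x 61) (x 62) (x 63) (x 64) (x 65) (x 66) (x 67) (x 68) (x 69) (x 70) (x 71) (x 72) (x 73) (x 74) := by
  refine ⟨?_, ?_, ?_, ?_, ?_, ?_, ?_, ?_, ?_, ?_⟩
  · have g44 : (x 60 + x 61 + x 66) % 2 = 0 := h 44
    have g45 : (x 61 + x 62 + x 67) % 2 = 0 := h 45
    have g46 : (x 62 + x 63 + x 68) % 2 = 0 := h 46
    have g47 : (x 63 + x 64 + x 69) % 2 = 0 := h 47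
    have g48 : (x 65 + x 70 + x 73) % 2 = 0 := h 48
    have g49 : (x 66 + x 71 + x 74) % 2 = 0 := h 49
    have g50 : (x 67 + x 70 + x 72) % 2 = 0 := h 50
    have g51 : (x 68 + x 71 + x 73) % 2 = 0 := h 51
    have g52 : (x 69 + x 72 + x 74) % 2 = 0 := h 52
    omega
  · have g44 : (x 60 + x 61 + x 66) % 2 = 0 := h 44
    omega
  · have g45 : (x 61 + x 62 + x 67) % 2 = 0 := h 45
    omega
  · have g46 : (x 62 + x 63 + x 68) % 2 = 0 := h 46
    omega
  · have g47 : (x 63 + x 64 + x 69) % 2 = 0 := h 47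
    omega
  · have g48 : (x 65 + x 70 + x 73) % 2 = 0 := h 48
    omega
  · have g49 : (x 66 + x 71 + x 74) % 2 = 0 := h 49
    omega
  · have g50 : (x 67 + x 70 + x 72) % 2 = 0 := h 50
    omega
  · have g51 : (x 68 + x 71 + x 73) % 2 = 0 := h 51
    omega
  · have g52 : (x 69 + x 72 + x 74) % 2 = 0 := h 52
    omega

theorem proj5 (x : ℕ → ℕ) (h : ParG x) : Par (x 80) (x 81) (x 82) (x 83) (x 84) (x 5) (x 20) (x 35) (x 50) (x 65) (x 85) (x 86) (x 87) (x 88) (x 89) := by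
  refine ⟨?_, ?_, ?_, ?_, ?_, ?_, ?_, ?_, ?_, ?_⟩
  · have g0 : (x 0 + x 1 + x 6) % 2 = 0 := h 0
    have g1 : (x 1 + x 2 + x 7) % 2 = 0 := h 1
    have g2 : (x 2 + x 3 + x 8) % 2 = 0 := h 2
    have g3 : (x 3 + x 4 + x 9) % 2 = 0 := h 3
    have g4 : (x 5 + x 10 + x 13) % 2 = 0 := h 4
    have g5 : (x 6 + x 11 + x 14) % 2 = 0 := h 5
    have g6 : (x 7 + x 10 + x 12) % 2 = 0 := h 6
    have g7 : (x 8 + x 11 + x 13) % 2 = 0 := h 7
    have g8 : (x 9 + x 12 + x 14) % 2 = 0 := h 8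
    have g9 : (x 0 + x 75 + x 84) % 2 = 0 := h 9
    have g10 : (x 4 + x 75 + x 80) % 2 = 0 := h 10
    omega
  · have g11 : (x 15 + x 16 + x 21) % 2 = 0 := h 11
    have g12 : (x 16 + x 17 + x 22) % 2 = 0 := h 12
    have g13 : (x 17 + x 18 + x 23) % 2 = 0 := h 13
    have g14 : (x 18 + x 19 + x 24) % 2 = 0 := h 14
    have g15 : (x 20 + x 25 + x 28) % 2 = 0 := h 15
    have g16 : (x 21 + x 26 + x 29) % 2 = 0 := h 16
    have g17 : (x 22 + x 25 + x 27) % 2 = 0 := h 17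
    have g18 : (x 23 + x 26 + x 28) % 2 = 0 := h 18
    have g19 : (x 24 + x 27 + x 29) % 2 = 0 := h 19
    have g20 : (x 15 + x 76 + x 80) % 2 = 0 := h 20
    have g21 : (x 19 + x 76 + x 81) % 2 = 0 := h 21
    omega
  · have g22 : (x 30 + x 31 + x 36) % 2 = 0 := h 22
    have g23 : (x 31 + x 32 + x 37) % 2 = 0 := h 23
    have g24 : (x 32 + x 33 + x 38) % 2 = 0 := h 24
    have g25 : (x 33 + x 34 + x 39) % 2 = 0 := h 25
    have g26 : (x 35 + x 40 + x 43) % 2 = 0 := h 26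
    have g27 : (x 36 + x 41 + x 44) % 2 = 0 := h 27
    have g28 : (x 37 + x 40 + x 42) % 2 = 0 := h 28
    have g29 : (x 38 + x 41 + x 43) % 2 = 0 := h 29
    have g30 : (x 39 + x 42 + x 44) % 2 = 0 := h 30
    have g31 : (x 30 + x 77 + x 81) % 2 = 0 := h 31
    have g32 : (x 34 + x 77 + x 82) % 2 = 0 := h 32
    omega
  · have g33 : (x 45 + x 46 + x 51) % 2 = 0 := h 33
    have g34 : (x 46 + x 47 + x 52) % 2 = 0 := h 34
    have g35 : (x 47 + x 48 + x 53) % 2 = 0 := h 35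
    have g36 : (x 48 + x 49 + x 54) % 2 = 0 := h 36
    have g37 : (x 50 + x 55 + x 58) % 2 = 0 := h 37
    have g38 : (x 51 + x 56 + x 59) % 2 = 0 := h 38
    have g39 : (x 52 + x 55 + x 57) % 2 = 0 := h 39
    have g40 : (x 53 + x 56 + x 58) % 2 = 0 := h 40
    have g41 : (x 54 + x 57 + x 59) % 2 = 0 := h 41
    have g42 : (x 45 + x 78 + x 82) % 2 = 0 := h 42
    have g43 : (x 49 + x 78 + x 83) % 2 = 0 := h 43
    omega
  · have g44 : (x 60 + x 61 + x 66) % 2 = 0 := h 44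
    have g45 : (x 61 + x 62 + x 67) % 2 = 0 := h 45
    have g46 : (x 62 + x 63 + x 68) % 2 = 0 := h 46
    have g47 : (x 63 + x 64 + x 69) % 2 = 0 := h 47
    have g48 : (x 65 + x 70 + x 73) % 2 = 0 := h 48
    have g49 : (x 66 + x 71 + x 74) % 2 = 0 := h 49
    have g50 : (x 67 + x 70 + x 72) % 2 = 0 := h 50
    have g51 : (x 68 + x 71 + x 73) % 2 = 0 := h 51
    have g52 : (x 69 + x 72 + x 74) % 2 = 0 := h 52
    have g53 : (x 60 + x 79 + x 83) % 2 = 0 := h 53
    have g54 : (x 64 + x 79 + x 84) % 2 = 0 := h 54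
    omega
  · have g55 : (x 5 + x 85 + x 88) % 2 = 0 := h 55
    omega
  · have g56 : (x 20 + x 86 + x 89) % 2 = 0 := h 56
    omega
  · have g57 : (x 35 + x 85 + x 87) % 2 = 0 := h 57
    omega
  · have g58 : (x 50 + x 86 + x 88) % 2 = 0 := h 58
    omega
  · have g59 : (x 65 + x 87 + x 89) % 2 = 0 := h 59
    omega


theorem low {ι : Type} (X : ι → ℕ → ℕ) (F : List ι) (hX : ∀ C ∈ F, ∀ i, X C i ∈ [0, 1])
    (hP : ∀ C ∈ F, ParG (X C)) (W : ℕ → ℕ) (hW : ∀ i, W i = (F.map (fun C => X C i)).sum)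
    (hb : ∀ i < 90, 1 ≤ W i ∧ W i ≤ 2) : 123 ≤ ∑ j ∈ range 90, W j := by
  have hm : ∀ i < 90, W i ∈ [1, 2] := by
    intro i hi
    have := hb i hi
    simp only [List.mem_cons, List.not_mem_nil, or_false]
    omega
  have f0 := fam X 0 1 2 3 4 5 6 7 8 9 10 11 12 13 14 F hX (fun C hC => proj0 _ (hP C hC)) W hW
  have g0 := two _ _ _ _ _ _ _ _ _ _ _ _ _ _ _ (hm 0 (by omega)) (hm 1 (by omega)) (hm 2 (by omega)) (hm 3 (by omega)) (hm 4 (by omega)) (hm 5 (by omega)) (hm 6 (by omega)) (hm 7 (by omega)) (hm 8 (by omega)) (hm 9 (by omega)) (hm 10 (by omega)) (hm 11 (by omega)) (hm 12 (by omega)) (hm 13 (by omega)) (hm 14 (by omega)) f0.1 f0.2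
  have f1 := fam X 15 16 17 18 19 20 21 22 23 24 25 26 27 28 29 F hX (fun C hC => proj1 _ (hP C hC)) W hW
  have g1 := two _ _ _ _ _ _ _ _ _ _ _ _ _ _ _ (hm 15 (by omega)) (hm 16 (by omega)) (hm 17 (by omega)) (hm 18 (by omega)) (hm 19 (by omega)) (hm 20 (by omega)) (hm 21 (by omega)) (hm 22 (by omega)) (hm 23 (by omega)) (hm 24 (by omega)) (hm 25 (by omega)) (hm 26 (by omega)) (hm 27 (by omega)) (hm 28 (by omega)) (hm 29 (by omega)) f1.1 f1.2
  have f2 := fam X 30 31 32 33 34 35 36 37 38 39 40 41 42 43 44 F hX (fun C hC => proj2 _ (hP C hC)) W hW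
  have g2 := two _ _ _ _ _ _ _ _ _ _ _ _ _ _ _ (hm 30 (by omega)) (hm 31 (by omega)) (hm 32 (by omega)) (hm 33 (by omega)) (hm 34 (by omega)) (hm 35 (by omega)) (hm 36 (by omega)) (hm 37 (by omega)) (hm 38 (by omega)) (hm 39 (by omega)) (hm 40 (by omega)) (hm 41 (by omega)) (hm 42 (by omega)) (hm 43 (by omega)) (hm 44 (by omega)) f2.1 f2.2
  have f3 := fam X 45 46 47 48 49 50 51 52 53 54 55 56 57 58 59 F hX (fun C hC => proj3 _ (hP C hC)) W hW
  have g3 := two _ _ _ _ _ _ _ _ _ _ _ _ _ _ _ (hm 45 (by omega)) (hm 46 (by omega)) (hm 47 (by omega)) (hm 48 (by omega)) (hm 49 (by omega)) (hm 50 (by omega)) (hm 51 (by omega)) (hm 52 (by omega)) (hm 53 (by omega)) (hm 54 (by omega)) (hm 55 (by omega)) (hm 56 (by omega)) (hm 57 (by omega)) (hm 58 (by omega)) (hm 59 (by omega)) f3.1 f3.2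
  have f4 := fam X 60 61 62 63 64 65 66 67 68 69 70 71 72 73 74 F hX (fun C hC => proj4 _ (hP C hC)) W hW
  have g4 := two _ _ _ _ _ _ _ _ _ _ _ _ _ _ _ (hm 60 (by omega)) (hm 61 (by omega)) (hm 62 (by omega)) (hm 63 (by omega)) (hm 64 (by omega)) (hm 65 (by omega)) (hm 66 (by omega)) (hm 67 (by omega)) (hm 68 (by omega)) (hm 69 (by omega)) (hm 70 (by omega)) (hm 71 (by omega)) (hm 72 (by omega)) (hm 73 (by omega)) (hm 74 (by omega)) f4.1 f4.2
  have f5 := fam X 80 81 82 83 84 5 20 35 50 65 85 86 87 88 89 F hX (fun C hC => proj5 _ (hP C hC)) W hW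
  have g5 := two _ _ _ _ _ _ _ _ _ _ _ _ _ _ _ (hm 80 (by omega)) (hm 81 (by omega)) (hm 82 (by omega)) (hm 83 (by omega)) (hm 84 (by omega)) (hm 5 (by omega)) (hm 20 (by omega)) (hm 35 (by omega)) (hm 50 (by omega)) (hm 65 (by omega)) (hm 85 (by omega)) (hm 86 (by omega)) (hm 87 (by omega)) (hm 88 (by omega)) (hm 89 (by omega)) f5.1 f5.2
  have t75 := (hb 75 (by omega)).1
  have t76 := (hb 76 (by omega)).1
  have t77 := (hb 77 (by omega)).1
  have t78 := (hb 78 (by omega)).1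
  have t79 := (hb 79 (by omega)).1
  have a0 := g0.1
  have a1 := g1.1
  have a2 := g2.1
  have a3 := g3.1
  have a4 := g4.1
  have a5 := g5.2
  simp only [Finset.sum_range_succ, Finset.sum_range_zero]
  clear * - a0 a1 a2 a3 a4 a5 t75 t76 t77 t78 t79
  omega

def cov : List (Σ v, G.Walk v v) := [
  ⟨42, (Walk.cons (show G.Adj 42 33 from (adj_iff _ _).2 ⟨45, by decide, by decide⟩)
    (Walk.cons (show G.Adj 33 38 from (adj_iff _ _).2 ⟨51, by decide, by decide⟩)
    (Walk.cons (show G.Adj 38 41 from (adj_iff _ _).2 ⟨59, by decide, by decide⟩)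
    (Walk.cons (show G.Adj 41 36 from (adj_iff _ _).2 ⟨54, by decide, by decide⟩)
    (Walk.cons (show G.Adj 36 43 from (adj_iff _ _).2 ⟨49, by decide, by decide⟩)
    (Walk.cons (show G.Adj 43 42 from (adj_iff _ _).2 ⟨78, by decide, by decide⟩)
    Walk.nil))))))⟩,
  ⟨2, (Walk.cons (show G.Adj 2 3 from (adj_iff _ _).2 ⟨3, by decide, by decide⟩)
    (Walk.cons (show G.Adj 3 10 from (adj_iff _ _).2 ⟨4, by decide, by decide⟩)
    (Walk.cons (show G.Adj 10 20 from (adj_iff _ _).2 ⟨80, by decide, by decide⟩)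
    (Walk.cons (show G.Adj 20 11 from (adj_iff _ _).2 ⟨15, by decide, by decide⟩)
    (Walk.cons (show G.Adj 11 12 from (adj_iff _ _).2 ⟨16, by decide, by decide⟩)
    (Walk.cons (show G.Adj 12 17 from (adj_iff _ _).2 ⟨22, by decide, by decide⟩)
    (Walk.cons (show G.Adj 17 15 from (adj_iff _ _).2 ⟨25, by decide, by decide⟩)
    (Walk.cons (show G.Adj 15 56 from (adj_iff _ _).2 ⟨20, by decide, by decide⟩)
    (Walk.cons (show G.Adj 56 58 from (adj_iff _ _).2 ⟨86, by decide, by decide⟩)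
    (Walk.cons (show G.Adj 58 37 from (adj_iff _ _).2 ⟨50, by decide, by decide⟩)
    (Walk.cons (show G.Adj 37 40 from (adj_iff _ _).2 ⟨58, by decide, by decide⟩)
    (Walk.cons (show G.Adj 40 35 from (adj_iff _ _).2 ⟨53, by decide, by decide⟩)
    (Walk.cons (show G.Adj 35 36 from (adj_iff _ _).2 ⟨48, by decide, by decide⟩)
    (Walk.cons (show G.Adj 36 43 from (adj_iff _ _).2 ⟨49, by decide, by decide⟩)
    (Walk.cons (show G.Adj 43 53 from (adj_iff _ _).2 ⟨83, by decide, by decide⟩)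
    (Walk.cons (show G.Adj 53 44 from (adj_iff _ _).2 ⟨60, by decide, by decide⟩)
    (Walk.cons (show G.Adj 44 45 from (adj_iff _ _).2 ⟨61, by decide, by decide⟩)
    (Walk.cons (show G.Adj 45 50 from (adj_iff _ _).2 ⟨67, by decide, by decide⟩)
    (Walk.cons (show G.Adj 50 48 from (adj_iff _ _).2 ⟨70, by decide, by decide⟩)
    (Walk.cons (show G.Adj 48 59 from (adj_iff _ _).2 ⟨65, by decide, by decide⟩)
    (Walk.cons (show G.Adj 59 57 from (adj_iff _ _).2 ⟨87, by decide, by decide⟩)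
    (Walk.cons (show G.Adj 57 55 from (adj_iff _ _).2 ⟨85, by decide, by decide⟩)
    (Walk.cons (show G.Adj 55 4 from (adj_iff _ _).2 ⟨5, by decide, by decide⟩)
    (Walk.cons (show G.Adj 4 7 from (adj_iff _ _).2 ⟨13, by decide, by decide⟩)
    (Walk.cons (show G.Adj 7 2 from (adj_iff _ _).2 ⟨8, by decide, by decide⟩)
    Walk.nil)))))))))))))))))))))))))⟩,
  ⟨31, (Walk.cons (show G.Adj 31 22 from (adj_iff _ _).2 ⟨30, by decide, by decide⟩)
    (Walk.cons (show G.Adj 22 27 from (adj_iff _ _).2 ⟨36, by decide, by decide⟩)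
    (Walk.cons (show G.Adj 27 30 from (adj_iff _ _).2 ⟨44, by decide, by decide⟩)
    (Walk.cons (show G.Adj 30 25 from (adj_iff _ _).2 ⟨39, by decide, by decide⟩)
    (Walk.cons (show G.Adj 25 32 from (adj_iff _ _).2 ⟨34, by decide, by decide⟩)
    (Walk.cons (show G.Adj 32 31 from (adj_iff _ _).2 ⟨77, by decide, by decide⟩)
    Walk.nil))))))⟩,
  ⟨9, (Walk.cons (show G.Adj 9 0 from (adj_iff _ _).2 ⟨0, by decide, by decide⟩)
    (Walk.cons (show G.Adj 0 1 from (adj_iff _ _).2 ⟨1, by decide, by decide⟩)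
    (Walk.cons (show G.Adj 1 6 from (adj_iff _ _).2 ⟨7, by decide, by decide⟩)
    (Walk.cons (show G.Adj 6 4 from (adj_iff _ _).2 ⟨10, by decide, by decide⟩)
    (Walk.cons (show G.Adj 4 55 from (adj_iff _ _).2 ⟨5, by decide, by decide⟩)
    (Walk.cons (show G.Adj 55 57 from (adj_iff _ _).2 ⟨85, by decide, by decide⟩)
    (Walk.cons (show G.Adj 57 26 from (adj_iff _ _).2 ⟨35, by decide, by decide⟩)
    (Walk.cons (show G.Adj 26 28 from (adj_iff _ _).2 ⟨40, by decide, by decide⟩)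
    (Walk.cons (show G.Adj 28 23 from (adj_iff _ _).2 ⟨37, by decide, by decide⟩)
    (Walk.cons (show G.Adj 23 22 from (adj_iff _ _).2 ⟨31, by decide, by decide⟩)
    (Walk.cons (show G.Adj 22 31 from (adj_iff _ _).2 ⟨30, by decide, by decide⟩)
    (Walk.cons (show G.Adj 31 21 from (adj_iff _ _).2 ⟨81, by decide, by decide⟩)
    (Walk.cons (show G.Adj 21 14 from (adj_iff _ _).2 ⟨19, by decide, by decide⟩)
    (Walk.cons (show G.Adj 14 13 from (adj_iff _ _).2 ⟨18, by decide, by decide⟩)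
    (Walk.cons (show G.Adj 13 18 from (adj_iff _ _).2 ⟨23, by decide, by decide⟩)
    (Walk.cons (show G.Adj 18 15 from (adj_iff _ _).2 ⟨28, by decide, by decide⟩)
    (Walk.cons (show G.Adj 15 56 from (adj_iff _ _).2 ⟨20, by decide, by decide⟩)
    (Walk.cons (show G.Adj 56 59 from (adj_iff _ _).2 ⟨89, by decide, by decide⟩)
    (Walk.cons (show G.Adj 59 48 from (adj_iff _ _).2 ⟨65, by decide, by decide⟩)
    (Walk.cons (show G.Adj 48 51 from (adj_iff _ _).2 ⟨73, by decide, by decide⟩)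
    (Walk.cons (show G.Adj 51 46 from (adj_iff _ _).2 ⟨68, by decide, by decide⟩)
    (Walk.cons (show G.Adj 46 47 from (adj_iff _ _).2 ⟨63, by decide, by decide⟩)
    (Walk.cons (show G.Adj 47 54 from (adj_iff _ _).2 ⟨64, by decide, by decide⟩)
    (Walk.cons (show G.Adj 54 9 from (adj_iff _ _).2 ⟨84, by decide, by decide⟩)
    Walk.nil))))))))))))))))))))))))⟩,
  ⟨34, (Walk.cons (show G.Adj 34 35 from (adj_iff _ _).2 ⟨47, by decide, by decide⟩)
    (Walk.cons (show G.Adj 35 40 from (adj_iff _ _).2 ⟨53, by decide, by decide⟩)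
    (Walk.cons (show G.Adj 40 38 from (adj_iff _ _).2 ⟨56, by decide, by decide⟩)
    (Walk.cons (show G.Adj 38 41 from (adj_iff _ _).2 ⟨59, by decide, by decide⟩)
    (Walk.cons (show G.Adj 41 39 from (adj_iff _ _).2 ⟨57, by decide, by decide⟩)
    (Walk.cons (show G.Adj 39 34 from (adj_iff _ _).2 ⟨52, by decide, by decide⟩)
    Walk.nil))))))⟩,
  ⟨24, (Walk.cons (show G.Adj 24 25 from (adj_iff _ _).2 ⟨33, by decide, by decide⟩)
    (Walk.cons (show G.Adj 25 32 from (adj_iff _ _).2 ⟨34, by decide, by decide⟩)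
    (Walk.cons (show G.Adj 32 42 from (adj_iff _ _).2 ⟨82, by decide, by decide⟩)
    (Walk.cons (show G.Adj 42 33 from (adj_iff _ _).2 ⟨45, by decide, by decide⟩)
    (Walk.cons (show G.Adj 33 34 from (adj_iff _ _).2 ⟨46, by decide, by decide⟩)
    (Walk.cons (show G.Adj 34 39 from (adj_iff _ _).2 ⟨52, by decide, by decide⟩)
    (Walk.cons (show G.Adj 39 37 from (adj_iff _ _).2 ⟨55, by decide, by decide⟩)
    (Walk.cons (show G.Adj 37 58 from (adj_iff _ _).2 ⟨50, by decide, by decide⟩)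
    (Walk.cons (show G.Adj 58 55 from (adj_iff _ _).2 ⟨88, by decide, by decide⟩)
    (Walk.cons (show G.Adj 55 57 from (adj_iff _ _).2 ⟨85, by decide, by decide⟩)
    (Walk.cons (show G.Adj 57 26 from (adj_iff _ _).2 ⟨35, by decide, by decide⟩)
    (Walk.cons (show G.Adj 26 29 from (adj_iff _ _).2 ⟨43, by decide, by decide⟩)
    (Walk.cons (show G.Adj 29 24 from (adj_iff _ _).2 ⟨38, by decide, by decide⟩)
    Walk.nil)))))))))))))⟩,
  ⟨45, (Walk.cons (show G.Adj 45 46 from (adj_iff _ _).2 ⟨62, by decide, by decide⟩)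
    (Walk.cons (show G.Adj 46 51 from (adj_iff _ _).2 ⟨68, by decide, by decide⟩)
    (Walk.cons (show G.Adj 51 49 from (adj_iff _ _).2 ⟨71, by decide, by decide⟩)
    (Walk.cons (show G.Adj 49 52 from (adj_iff _ _).2 ⟨74, by decide, by decide⟩)
    (Walk.cons (show G.Adj 52 50 from (adj_iff _ _).2 ⟨72, by decide, by decide⟩)
    (Walk.cons (show G.Adj 50 45 from (adj_iff _ _).2 ⟨67, by decide, by decide⟩)
    Walk.nil))))))⟩,
  ⟨9, (Walk.cons (show G.Adj 9 0 from (adj_iff _ _).2 ⟨0, by decide, by decide⟩)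
    (Walk.cons (show G.Adj 0 5 from (adj_iff _ _).2 ⟨6, by decide, by decide⟩)
    (Walk.cons (show G.Adj 5 8 from (adj_iff _ _).2 ⟨14, by decide, by decide⟩)
    (Walk.cons (show G.Adj 8 3 from (adj_iff _ _).2 ⟨9, by decide, by decide⟩)
    (Walk.cons (show G.Adj 3 10 from (adj_iff _ _).2 ⟨4, by decide, by decide⟩)
    (Walk.cons (show G.Adj 10 9 from (adj_iff _ _).2 ⟨75, by decide, by decide⟩)
    Walk.nil))))))⟩,
  ⟨20, (Walk.cons (show G.Adj 20 11 from (adj_iff _ _).2 ⟨15, by decide, by decide⟩)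
    (Walk.cons (show G.Adj 11 16 from (adj_iff _ _).2 ⟨21, by decide, by decide⟩)
    (Walk.cons (show G.Adj 16 19 from (adj_iff _ _).2 ⟨29, by decide, by decide⟩)
    (Walk.cons (show G.Adj 19 14 from (adj_iff _ _).2 ⟨24, by decide, by decide⟩)
    (Walk.cons (show G.Adj 14 21 from (adj_iff _ _).2 ⟨19, by decide, by decide⟩)
    (Walk.cons (show G.Adj 21 20 from (adj_iff _ _).2 ⟨76, by decide, by decide⟩)
    Walk.nil))))))⟩,
  ⟨23, (Walk.cons (show G.Adj 23 24 from (adj_iff _ _).2 ⟨32, by decide, by decide⟩)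
    (Walk.cons (show G.Adj 24 29 from (adj_iff _ _).2 ⟨38, by decide, by decide⟩)
    (Walk.cons (show G.Adj 29 27 from (adj_iff _ _).2 ⟨41, by decide, by decide⟩)
    (Walk.cons (show G.Adj 27 30 from (adj_iff _ _).2 ⟨44, by decide, by decide⟩)
    (Walk.cons (show G.Adj 30 28 from (adj_iff _ _).2 ⟨42, by decide, by decide⟩)
    (Walk.cons (show G.Adj 28 23 from (adj_iff _ _).2 ⟨37, by decide, by decide⟩)
    Walk.nil))))))⟩,
  ⟨53, (Walk.cons (show G.Adj 53 44 from (adj_iff _ _).2 ⟨60, by decide, by decide⟩)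
    (Walk.cons (show G.Adj 44 49 from (adj_iff _ _).2 ⟨66, by decide, by decide⟩)
    (Walk.cons (show G.Adj 49 52 from (adj_iff _ _).2 ⟨74, by decide, by decide⟩)
    (Walk.cons (show G.Adj 52 47 from (adj_iff _ _).2 ⟨69, by decide, by decide⟩)
    (Walk.cons (show G.Adj 47 54 from (adj_iff _ _).2 ⟨64, by decide, by decide⟩)
    (Walk.cons (show G.Adj 54 53 from (adj_iff _ _).2 ⟨79, by decide, by decide⟩)
    Walk.nil))))))⟩,
  ⟨1, (Walk.cons (show G.Adj 1 2 from (adj_iff _ _).2 ⟨2, by decide, by decide⟩)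
    (Walk.cons (show G.Adj 2 7 from (adj_iff _ _).2 ⟨8, by decide, by decide⟩)
    (Walk.cons (show G.Adj 7 5 from (adj_iff _ _).2 ⟨11, by decide, by decide⟩)
    (Walk.cons (show G.Adj 5 8 from (adj_iff _ _).2 ⟨14, by decide, by decide⟩)
    (Walk.cons (show G.Adj 8 6 from (adj_iff _ _).2 ⟨12, by decide, by decide⟩)
    (Walk.cons (show G.Adj 6 1 from (adj_iff _ _).2 ⟨7, by decide, by decide⟩)
    Walk.nil))))))⟩,
  ⟨12, (Walk.cons (show G.Adj 12 13 from (adj_iff _ _).2 ⟨17, by decide, by decide⟩)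
    (Walk.cons (show G.Adj 13 18 from (adj_iff _ _).2 ⟨23, by decide, by decide⟩)
    (Walk.cons (show G.Adj 18 16 from (adj_iff _ _).2 ⟨26, by decide, by decide⟩)
    (Walk.cons (show G.Adj 16 19 from (adj_iff _ _).2 ⟨29, by decide, by decide⟩)
    (Walk.cons (show G.Adj 19 17 from (adj_iff _ _).2 ⟨27, by decide, by decide⟩)
    (Walk.cons (show G.Adj 17 12 from (adj_iff _ _).2 ⟨22, by decide, by decide⟩)
    Walk.nil))))))⟩]

theorem cov_cyc : ∀ C ∈ cov, C.2.IsCycle := by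
  have h : ∀ C ∈ cov, C.2.edges.Nodup ∧ C.2.length ≠ 0 ∧ C.2.support.tail.Nodup := by
    decide +kernel
  intro C hC
  obtain ⟨h1, h2, h3⟩ := h C hC
  exact ⟨⟨⟨h1⟩, fun e => h2 (by rw [e]; rfl)⟩, h3⟩

theorem cov_cov : ∀ i < 90, ∃ C ∈ cov, ed i ∈ C.2.edges := by decide +kernel

theorem cov_len : (cov.map (fun C => C.2.length)).sum = 122 := by decide +kernel

theorem main (F : List (Σ v, G.Walk v v)) (h1 : ∀ C ∈ F, C.2.IsCycle)
    (h2 : ∀ e ∈ G.edgeSet, ∃ C ∈ F, e ∈ C.2.edges)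
    (h3 : ∀ e ∈ G.edgeSet, F.countP (fun C => decide (e ∈ C.2.edges)) ≤ 2) :
    123 ≤ (F.map (fun C => C.2.length)).sum := by
  have e1 : ∀ i, (F.map (fun C => xc C.2 i)).sum =
      F.countP (fun C => decide (ed i ∈ C.2.edges)) := by
    intro i
    clear h2 h3
    induction F with
    | nil => simp
    | cons C F ih =>
      have hn := (h1 C List.mem_cons_self).isTrail.edges_nodup
      rw [List.map_cons, List.sum_cons, List.countP_cons,
        ih (fun D hD => h1 D (List.mem_cons_of_mem _ hD)), add_comm]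
      congr 1
      by_cases he : ed i ∈ C.2.edges
      · simp [xc, he, List.count_eq_one_of_mem hn he]
      · simp [xc, he, List.count_eq_zero_of_not_mem he]
  have e2 : (F.map (fun C => C.2.length)).sum =
      ∑ j ∈ range 90, (F.map (fun C => xc C.2 j)).sum := by
    clear h1 h2 h3 e1
    induction F with
    | nil => simp
    | cons C F ih =>
      simp only [List.map_cons, List.sum_cons, sum_add_distrib]
      rw [ih, len_walk]
  rw [e2]
  refine low (fun C i => xc C.2 i) F (fun C hC i => ?_) (fun C _ => parG C.2) _ (fun _ => rfl)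
    (fun i hi => ?_)
  · have := List.nodup_iff_count_le_one.1 (h1 C hC).isTrail.edges_nodup (ed i)
    simp only [xc, List.mem_cons, List.not_mem_nil, or_false]
    omega
  · have he : ed i ∈ G.edgeSet := (mem_iff _).2 ⟨i, hi, rfl⟩
    rw [e1]
    refine ⟨?_, h3 _ he⟩
    obtain ⟨C, hC, hC'⟩ := h2 _ he
    exact List.countP_pos_iff.2 ⟨C, hC, by simpa using hC'⟩

end Pool.Agent.H.MP_ba3dea_co
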